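import Pool.Agent.H486Z.ThMain

set_option autoImplicit false

open MeasureTheory Pool.Agent.H486Z.Theon

theorem Pool.Agent.Results.MP_351e8f_co.BorelC4.result :
    ∀ N : Set (EE (Fin 2)), NullMeasurableSet N volume → (StrongOn N ∨ WeakOn N) →
      ∃ N' : Set (EE (Fin 2)), @MeasurableSet _ (borel _) N' ∧ StrongOn N' ∧
        volume (symmDiff N N') = 0 := by
  intro N hN h
  obtain ⟨N', h1, h2, h3⟩ := main hN (h.elim weak_of_strong id)
  refine ⟨N', ?_, h2, h3⟩
  rw [← BorelSpace.measurable_eq]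
  exact h1
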